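import Pool.Agent.H81AE.Comp

/-! Computable labels from a Sigma-three predicate, and computability of the colouring. -/

namespace H81AE

/-- `lt` as a Bool -/
def ltb (a b : ℕ) : Bool := decide (a < b)
/-- `le` as a Bool -/
def leb (a b : ℕ) : Bool := decide (a ≤ b)
/-- `eq` as a Bool -/
def eqb (a b : ℕ) : Bool := decide (a = b)

lemma ltb_iff {a b : ℕ} : ltb a b = true ↔ a < b := by simp [ltb]
lemma leb_iff {a b : ℕ} : leb a b = true ↔ a ≤ b := by simp [leb]
lemma eqb_iff {a b : ℕ} : eqb a b = true ↔ a = b := by simp [eqb]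

variable {α : Type*} [Primcodable α]

lemma comp_ltb {f g : α → ℕ} (hf : Computable f) (hg : Computable g) :
    Computable (fun a => ltb (f a) (g a)) :=
  Computable₂.comp (Primrec.nat_lt.decide.to_comp) hf hg

lemma comp_leb {f g : α → ℕ} (hf : Computable f) (hg : Computable g) :
    Computable (fun a => leb (f a) (g a)) :=
  Computable₂.comp (Primrec.nat_le.decide.to_comp) hf hg

lemma comp_eqb {f g : α → ℕ} (hf : Computable f) (hg : Computable g) :
    Computable (fun a => eqb (f a) (g a)) :=
  Computable₂.comp (Primrec.eq.decide.to_comp) hf hg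

lemma comp_and {f g : α → Bool} (hf : Computable f) (hg : Computable g) :
    Computable (fun a => f a && g a) :=
  Computable₂.comp (Primrec.and.to_comp) hf hg

lemma comp_or {f g : α → Bool} (hf : Computable f) (hg : Computable g) :
    Computable (fun a => f a || g a) :=
  Computable₂.comp (Primrec.or.to_comp) hf hg

lemma comp_not {f : α → Bool} (hf : Computable f) :
    Computable (fun a => !f a) :=
  (Primrec.not.to_comp).comp hf

lemma comp_succ {f : α → ℕ} (hf : Computable f) : Computable (fun a => f a + 1) :=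
  Computable.succ.comp hf

lemma comp_pred {f : α → ℕ} (hf : Computable f) : Computable (fun a => f a - 1) :=
  Computable.pred.comp hf

/-- progress of the `Π₂` statement `∀ b, ∃ c, R b c` up to time `t` -/
def prog (R : ℕ → ℕ → Bool) (t : ℕ) : ℕ :=
  cnt (fun b => ball (fun b' => bex (fun c => R b' c) t) (b + 1)) t

/-- progress at time `t` -/
def inc (R : ℕ → ℕ → Bool) (t : ℕ) : Bool := ltb (prog R t) (prog R (t + 1))

/-- the label at time `t`: the least `a < t` whose statement progresses, or `t` -/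
def lab (R : ℕ → ℕ → ℕ → Bool) (t : ℕ) : ℕ :=
  cnt (fun a => ball (fun a' => !inc (R a') t) (a + 1)) t

lemma prog_mono {R : ℕ → ℕ → Bool} {s t : ℕ} (h : s ≤ t) : prog R s ≤ prog R t := by
  unfold prog
  rw [cnt_eq, cnt_eq]
  apply Finset.card_le_card
  intro b hb
  rw [Finset.mem_filter, Finset.mem_range, ball_iff] at hb ⊢
  refine ⟨by omega, fun i hi => ?_⟩
  have := hb.2 i hi
  rw [bex_iff] at this ⊢
  obtain ⟨c, hc, hR⟩ := this
  exact ⟨c, by omega, hR⟩

lemma prog_le {R : ℕ → ℕ → Bool} {b : ℕ} (hb : ∀ c, R b c = false) (t : ℕ) : prog R t ≤ b := by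
  unfold prog
  rw [cnt_eq]
  calc _ ≤ (Finset.range b).card := by
        apply Finset.card_le_card
        intro i hi
        rw [Finset.mem_filter, ball_iff] at hi
        rw [Finset.mem_range]
        by_contra hcon
        have := hi.2 b (by omega)
        rw [bex_iff] at this
        obtain ⟨c, _, hc⟩ := this
        rw [hb c] at hc
        exact absurd hc (by simp)
    _ = b := by simp

lemma prog_ge {R : ℕ → ℕ → Bool} (h : ∀ b, ∃ c, R b c = true) (B : ℕ) :
    ∃ t, B ≤ prog R t := by
  choose w hw using h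
  refine ⟨B + ∑ i ∈ Finset.range B, (w i + 1), ?_⟩
  set t := B + ∑ i ∈ Finset.range B, (w i + 1) with ht
  have hwt : ∀ i < B, w i < t := by
    intro i hi
    have h1 : w i + 1 ≤ ∑ i ∈ Finset.range B, (w i + 1) :=
      Finset.single_le_sum (f := fun i => w i + 1) (fun _ _ => Nat.zero_le _)
        (Finset.mem_range.2 hi)
    omega
  unfold prog
  rw [cnt_eq]
  calc B = (Finset.range B).card := by simp
    _ ≤ _ := by
        apply Finset.card_le_card
        intro i hi
        rw [Finset.mem_range] at hi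
        rw [Finset.mem_filter, Finset.mem_range, ball_iff]
        refine ⟨by omega, fun j hj => ?_⟩
        rw [bex_iff]
        exact ⟨w j, hwt j (by omega), hw j⟩

lemma inc_inf {R : ℕ → ℕ → Bool} : (∀ b, ∃ c, R b c = true) ↔ ∀ T, ∃ t, T ≤ t ∧ inc R t = true := by
  constructor
  · intro h T
    by_contra hcon
    push Not at hcon
    have hconst : ∀ s, prog R (T + s) ≤ prog R T := by
      intro s
      induction s with
      | zero => simp
      | succ s ih =>
        have := hcon (T + s) (by omega)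
        unfold inc at this
        rw [Ne, ltb_iff] at this
        have h3 : T + (s + 1) = T + s + 1 := by ring
        rw [h3]
        omega
    obtain ⟨t, ht⟩ := prog_ge h (prog R T + 1)
    rcases Nat.lt_or_ge t T with h1 | h1
    · have := prog_mono (R := R) (s := t) (t := T) (by omega)
      omega
    · have := hconst (t - T)
      rw [show T + (t - T) = t by omega] at this
      omega
  · intro h b
    by_contra hcon
    push Not at hcon
    have hb : ∀ c, R b c = false := fun c => by simpa using hcon c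
    have hunb : ∀ B, ∃ t, B ≤ prog R t := by
      intro B
      induction B with
      | zero => exact ⟨0, by omega⟩
      | succ B ih =>
        obtain ⟨t, ht⟩ := ih
        obtain ⟨s, hs, hs'⟩ := h t
        unfold inc at hs'
        rw [ltb_iff] at hs'
        have := prog_mono (R := R) hs
        exact ⟨s + 1, by omega⟩
    obtain ⟨t, ht⟩ := hunb (b + 1)
    have := prog_le hb t
    omega

lemma lab_le_self (R : ℕ → ℕ → ℕ → Bool) (t : ℕ) : lab R t ≤ t := by
  unfold lab
  rw [cnt_eq]
  calc _ ≤ (Finset.range t).card := Finset.card_le_card (Finset.filter_subset _ _)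
    _ = t := by simp

lemma lab_le {R : ℕ → ℕ → ℕ → Bool} {a t : ℕ} (h : inc (R a) t = true) : lab R t ≤ a := by
  unfold lab
  rw [cnt_eq]
  calc _ ≤ (Finset.range a).card := by
        apply Finset.card_le_card
        intro i hi
        rw [Finset.mem_filter, ball_iff] at hi
        rw [Finset.mem_range]
        by_contra hcon
        have := hi.2 a (by omega)
        rw [h] at this
        exact absurd this (by simp)
    _ = a := by simp

lemma exists_inc_of_lab_le {R : ℕ → ℕ → ℕ → Bool} {k t : ℕ} (hkt : k < t) (h : lab R t ≤ k) :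
    ∃ a, a ≤ k ∧ inc (R a) t = true := by
  by_contra hcon
  push Not at hcon
  have : k + 1 ≤ lab R t := by
    unfold lab
    rw [cnt_eq]
    calc k + 1 = (Finset.range (k + 1)).card := by simp
      _ ≤ _ := by
          apply Finset.card_le_card
          intro i hi
          rw [Finset.mem_range] at hi
          rw [Finset.mem_filter, Finset.mem_range, ball_iff]
          refine ⟨by omega, fun j hj => ?_⟩
          have := hcon j (by omega)
          simpa using this
  omega

theorem sigma3_iff (R : ℕ → ℕ → ℕ → Bool) :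
    (∃ a, ∀ b, ∃ c, R a b c = true) ↔ ∃ k, ∀ T, ∃ t, T ≤ t ∧ lab R t ≤ k := by
  constructor
  · rintro ⟨a, ha⟩
    refine ⟨a, fun T => ?_⟩
    obtain ⟨t, ht, ht'⟩ := inc_inf.1 ha T
    exact ⟨t, ht, lab_le ht'⟩
  · rintro ⟨k, hk⟩
    by_contra hcon
    push Not at hcon
    have h1 : ∀ a, ∃ T, ∀ t, T ≤ t → inc (R a) t = false := by
      intro a
      by_contra hc
      push Not at hc
      have : ∀ b, ∃ c, R a b c = true := inc_inf.2 (fun T => by
        obtain ⟨t, ht, ht'⟩ := hc T
        exact ⟨t, ht, by simpa using ht'⟩)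
      obtain ⟨b, hb⟩ := hcon a
      obtain ⟨c, hc⟩ := this b
      exact hb c hc
    choose T hT using h1
    obtain ⟨t, ht, ht'⟩ := hk (k + 1 + ∑ i ∈ Finset.range (k + 1), T i)
    obtain ⟨a, hak, ha⟩ := exists_inc_of_lab_le (by omega) ht'
    have h2 : T a ≤ ∑ i ∈ Finset.range (k + 1), T i :=
      Finset.single_le_sum (f := fun i => T i) (fun _ _ => Nat.zero_le _)
        (Finset.mem_range.2 (by omega))
    have := hT a t (by omega)
    rw [ha] at this
    exact absurd this (by simp)

/-! ### computability -/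

section
attribute [local irreducible] bex ball cnt bsum

lemma comp_prog {R : α → ℕ → ℕ → Bool} {g : α → ℕ}
    (hR : Computable (fun p : α × ℕ × ℕ => R p.1 p.2.1 p.2.2)) (hg : Computable g) :
    Computable (fun a => prog (R a) (g a)) := by
  unfold prog
  refine comp_cnt (f := fun a b => ball (fun b' => bex (fun c => R a b' c) (g a)) (b + 1)) ?_ hg
  refine comp_ball (α := α × ℕ) (f := fun p b' => bex (fun c => R p.1 b' c) (g p.1)) ?_
    (comp_succ Computable.snd)
  refine comp_bex (α := (α × ℕ) × ℕ) (f := fun p c => R p.1.1 p.2 c) ?_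
    (hg.comp (Computable.fst.comp Computable.fst))
  have h := Computable.comp (f := fun p : α × ℕ × ℕ => R p.1 p.2.1 p.2.2)
    (g := fun q : ((α × ℕ) × ℕ) × ℕ => (q.1.1.1, q.1.2, q.2)) hR (Computable.pair
    (Computable.fst.comp (Computable.fst.comp Computable.fst))
    (Computable.pair (Computable.snd.comp Computable.fst) Computable.snd))
  exact h

lemma comp_inc {R : α → ℕ → ℕ → Bool} {g : α → ℕ}
    (hR : Computable (fun p : α × ℕ × ℕ => R p.1 p.2.1 p.2.2)) (hg : Computable g) :
    Computable (fun a => inc (R a) (g a)) :=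
  comp_ltb (comp_prog hR hg) (comp_prog hR (comp_succ hg))

lemma comp_lab {R : α → ℕ → ℕ → ℕ → Bool} {g : α → ℕ}
    (hR : Computable (fun p : α × ℕ × ℕ × ℕ => R p.1 p.2.1 p.2.2.1 p.2.2.2))
    (hg : Computable g) :
    Computable (fun a => lab (R a) (g a)) := by
  unfold lab
  refine comp_cnt (f := fun a b => ball (fun a' => !inc (R a a') (g a)) (b + 1)) ?_ hg
  refine comp_ball (α := α × ℕ) (f := fun p a' => !inc (R p.1 a') (g p.1)) ?_
    (comp_succ Computable.snd)
  refine comp_not ?_
  refine comp_inc (α := (α × ℕ) × ℕ) (R := fun p => R p.1.1 p.2) (g := fun p => g p.1.1) ?_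
    (hg.comp (Computable.fst.comp Computable.fst))
  have h := Computable.comp (f := fun p : α × ℕ × ℕ × ℕ => R p.1 p.2.1 p.2.2.1 p.2.2.2)
    (g := fun q : ((α × ℕ) × ℕ) × ℕ × ℕ => (q.1.1.1, q.1.2, q.2.1, q.2.2)) hR (Computable.pair
    (Computable.fst.comp (Computable.fst.comp Computable.fst))
    (Computable.pair (Computable.snd.comp Computable.fst) Computable.snd))
  exact h

end

lemma comp_testBit : Computable₂ Nat.testBit := by
  have h1 : Primrec₂ (fun x i : ℕ => decide (x / 2 ^ i % 2 = 1)) := by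
    have hp : Primrec₂ (fun x i : ℕ => x ^ i) := Primrec₂.unpaired'.1 Nat.Primrec.pow
    have h2 : Primrec (fun p : ℕ × ℕ => p.1 / 2 ^ p.2 % 2) :=
      Primrec.nat_mod.comp (Primrec.nat_div.comp Primrec.fst
        (hp.comp (Primrec.const 2) Primrec.snd)) (Primrec.const 2)
    exact Primrec.eq.decide.comp h2 (Primrec.const 1)
  refine h1.to_comp.of_eq ?_
  intro p
  exact Nat.testBit_eq_decide_div_mod_eq.symm

/-- `a` and `b` are consecutive binary digits of `c` (given `a < b`) -/
def gapB (c a b : ℕ) : Bool :=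
  c.testBit a && c.testBit b && ball (fun d => !(ltb a d && c.testBit d)) b

/-- Bool version of the letter relation -/
def LtB (e : ℕ → ℕ) (a b v z : ℕ) : Bool :=
  leb z (a + 1) && bex (fun t => ltb a t && eqb (e t) v) (b + 1) &&
    ball (fun t => ltb t z || leb v (e t)) (b + 1) && (eqb z 0 || ltb (e (z - 1)) v)

/-- number of letters of the gaps of `c` -/
def cntA (e : ℕ → ℕ) (c : ℕ) : ℕ :=
  bsum (fun v => cnt (fun z => bex (fun b => bex (fun a => gapB c a b && LtB e a b v z) b) c) c) c

section
attribute [local irreducible] bex ball cnt bsum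

lemma comp_gapB : Computable (fun p : ℕ × ℕ × ℕ => gapB p.1 p.2.1 p.2.2) := by
  unfold gapB
  refine comp_and (comp_and ?_ ?_) ?_
  · exact comp_testBit.comp Computable.fst (Computable.fst.comp Computable.snd)
  · exact comp_testBit.comp Computable.fst (Computable.snd.comp Computable.snd)
  · refine comp_ball (f := fun (p : ℕ × ℕ × ℕ) d => !(ltb p.2.1 d && p.1.testBit d)) ?_
      (Computable.snd.comp Computable.snd)
    refine comp_not (comp_and (comp_ltb ?_ Computable.snd) (comp_testBit.comp ?_ Computable.snd))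
    · exact Computable.fst.comp (Computable.snd.comp Computable.fst)
    · exact Computable.fst.comp Computable.fst

lemma comp_LtB {E : ℕ → ℕ → ℕ} (hE : Computable₂ E) :
    Computable (fun p : ℕ × ℕ × ℕ × ℕ × ℕ => LtB (E p.1) p.2.1 p.2.2.1 p.2.2.2.1 p.2.2.2.2) := by
  have p0 : Computable (fun p : ℕ × ℕ × ℕ × ℕ × ℕ => p.1) := Computable.fst
  have p1 : Computable (fun p : ℕ × ℕ × ℕ × ℕ × ℕ => p.2.1) := Computable.fst.comp Computable.snd
  have p22 : Computable (fun p : ℕ × ℕ × ℕ × ℕ × ℕ => p.2.2) := Computable.snd.comp Computable.snd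
  have p2 : Computable (fun p : ℕ × ℕ × ℕ × ℕ × ℕ => p.2.2.1) := Computable.fst.comp p22
  have p222 : Computable (fun p : ℕ × ℕ × ℕ × ℕ × ℕ => p.2.2.2) := Computable.snd.comp p22
  have p3 : Computable (fun p : ℕ × ℕ × ℕ × ℕ × ℕ => p.2.2.2.1) := Computable.fst.comp p222
  have p4 : Computable (fun p : ℕ × ℕ × ℕ × ℕ × ℕ => p.2.2.2.2) := Computable.snd.comp p222
  unfold LtB
  refine comp_and (comp_and (comp_and ?_ ?_) ?_) ?_
  · exact comp_leb p4 (comp_succ p1)
  · refine comp_bex (f := fun (p : ℕ × ℕ × ℕ × ℕ × ℕ) t => ltb p.2.1 t && eqb (E p.1 t) p.2.2.2.1)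
      ?_ (comp_succ p2)
    refine comp_and (comp_ltb (p1.comp Computable.fst) Computable.snd) (comp_eqb ?_
      (p3.comp Computable.fst))
    exact hE.comp (p0.comp Computable.fst) Computable.snd
  · refine comp_ball (f := fun (p : ℕ × ℕ × ℕ × ℕ × ℕ) t => ltb t p.2.2.2.2 || leb p.2.2.2.1 (E p.1 t))
      ?_ (comp_succ p2)
    refine comp_or (comp_ltb Computable.snd (p4.comp Computable.fst)) (comp_leb
      (p3.comp Computable.fst) ?_)
    exact hE.comp (p0.comp Computable.fst) Computable.snd
  · exact comp_or (comp_eqb p4 (Computable.const 0)) (comp_ltb (hE.comp p0 (comp_pred p4)) p3)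

attribute [local irreducible] LtB gapB in
lemma comp_cntA {E : ℕ → ℕ → ℕ} (hE : Computable₂ E) : Computable₂ (fun n c => cntA (E n) c) := by
  unfold cntA
  refine comp_bsum (α := ℕ × ℕ) (f := fun p v => cnt (fun z => bex (fun b =>
    bex (fun a => gapB p.2 a b && LtB (E p.1) a b v z) b) p.2) p.2) ?_ Computable.snd
  refine comp_cnt (α := (ℕ × ℕ) × ℕ) (f := fun q z => bex (fun b =>
    bex (fun a => gapB q.1.2 a b && LtB (E q.1.1) a b q.2 z) b) q.1.2) ?_
    (Computable.snd.comp Computable.fst)
  refine comp_bex (α := ((ℕ × ℕ) × ℕ) × ℕ) (f := fun r b =>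
    bex (fun a => gapB r.1.1.2 a b && LtB (E r.1.1.1) a b r.1.2 r.2) b) ?_
    (Computable.snd.comp (Computable.fst.comp Computable.fst))
  refine comp_bex (α := (((ℕ × ℕ) × ℕ) × ℕ) × ℕ) (f := fun s a =>
    gapB s.1.1.1.2 a s.2 && LtB (E s.1.1.1.1) a s.2 s.1.1.2 s.1.2) ?_ Computable.snd
  -- context s : ((((n,c),v),z),b),  pair (s,a)
  have f1 : Computable (fun w : ((((ℕ × ℕ) × ℕ) × ℕ) × ℕ) × ℕ => w.1) := Computable.fst
  have f11 : Computable (fun w : ((((ℕ × ℕ) × ℕ) × ℕ) × ℕ) × ℕ => w.1.1) := Computable.fst.comp f1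
  have f111 : Computable (fun w : ((((ℕ × ℕ) × ℕ) × ℕ) × ℕ) × ℕ => w.1.1.1) :=
    Computable.fst.comp f11
  have f1111 : Computable (fun w : ((((ℕ × ℕ) × ℕ) × ℕ) × ℕ) × ℕ => w.1.1.1.1) :=
    Computable.fst.comp f111
  have fn : Computable (fun w : ((((ℕ × ℕ) × ℕ) × ℕ) × ℕ) × ℕ => w.1.1.1.1.1) :=
    Computable.fst.comp f1111
  have fc : Computable (fun w : ((((ℕ × ℕ) × ℕ) × ℕ) × ℕ) × ℕ => w.1.1.1.1.2) :=
    Computable.snd.comp f1111
  have fv : Computable (fun w : ((((ℕ × ℕ) × ℕ) × ℕ) × ℕ) × ℕ => w.1.1.1.2) :=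
    Computable.snd.comp f111
  have fz : Computable (fun w : ((((ℕ × ℕ) × ℕ) × ℕ) × ℕ) × ℕ => w.1.1.2) :=
    Computable.snd.comp f11
  have fb : Computable (fun w : ((((ℕ × ℕ) × ℕ) × ℕ) × ℕ) × ℕ => w.1.2) :=
    Computable.snd.comp f1
  have fa : Computable (fun w : ((((ℕ × ℕ) × ℕ) × ℕ) × ℕ) × ℕ => w.2) := Computable.snd
  have h1 := Computable.comp comp_gapB (Computable.pair fc (Computable.pair fa fb))
  have h2 := Computable.comp (comp_LtB hE) (Computable.pair fn (Computable.pair fa
    (Computable.pair fb (Computable.pair fv fz))))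
  have h3 := comp_and h1 h2
  simp only at h3
  exact h3

end

end H81AE
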