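import Pool.Agent.H81AE.Tree

/-! The number of letters modulo 3 decides whether the labels have a finite lim inf. -/

namespace H81AE

open Finset

lemma above_of {D₁ D₂ : Finset ℕ} (h1 : D₁.Nonempty) (h2 : D₂.Nonempty)
    (h : ∀ a ∈ D₁, ∀ b ∈ D₂, a < b) : Above D₁ D₂ (D₁.max' h1) (D₂.min' h2) where
  hM := Finset.max'_mem _ _
  hM' := fun d hd => Finset.le_max' _ d hd
  hN := Finset.min'_mem _ _
  hN' := fun d hd => Finset.min'_le _ d hd
  hMN := h _ (Finset.max'_mem _ _) _ (Finset.min'_mem _ _)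

/-- the hypothesis satisfied by the digit sets of a typical triple of times -/
def Homog (F : Finset ℕ → ℕ) (i : ℕ) : Prop :=
  ∀ N₀, ∃ D₁ : Finset ℕ, D₁.Nonempty ∧ (∀ d ∈ D₁, N₀ ≤ d) ∧ F D₁ = i ∧
    ∀ N, ∃ D₂ : Finset ℕ, D₂.Nonempty ∧ (∀ d ∈ D₂, N ≤ d) ∧ F D₂ = i ∧ F (D₁ ∪ D₂) = i ∧
      ∀ N', ∃ D₃ : Finset ℕ, D₃.Nonempty ∧ (∀ d ∈ D₃, N' ≤ d) ∧ F D₃ = i ∧ F (D₁ ∪ D₃) = i ∧
        F (D₂ ∪ D₃) = i ∧ F (D₁ ∪ D₂ ∪ D₃) = i

theorem homog_iff (e : ℕ → ℕ) (i : ℕ) (H : Homog (fun D => (A e D).card % 3) i) :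
    i = 1 ↔ ∃ k, ∀ T, ∃ t, T ≤ t ∧ e t ≤ k := by
  classical
  constructor
  · -- contrapositive: labels tend to infinity
    intro hi
    by_contra hcon
    push Not at hcon
    obtain ⟨D₁, hne1, _, hF1, H1⟩ := H 0
    -- bound for the letters
    set M := D₁.max' hne1 with hM
    obtain ⟨K, hK1, hK2⟩ : ∃ K, (∀ q ∈ A e D₁, q.1 ≤ K) ∧ e (M + 1) ≤ K := by
      refine ⟨(A e D₁).sup (fun q => q.1) + e (M + 1), fun q hq => ?_, by omega⟩
      have := Finset.le_sup (f := fun q : ℕ × ℕ => q.1) hq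
      omega
    obtain ⟨T, hT⟩ := hcon K
    obtain ⟨D₂, hne2, hD2, hF2, hF12, _⟩ := H1 (max T (M + 1))
    have hab : Above D₁ D₂ M (D₂.min' hne2) := above_of hne1 hne2 (by
      intro a ha b hb
      have h1 := Finset.le_max' _ a ha
      have h2 := hD2 b hb
      have h3 := le_max_right T (M + 1)
      omega)
    have := card_union_of_tendsto hab hK1 hK2 (by
      intro t ht
      apply hT
      have h2 := hD2 _ (Finset.min'_mem _ hne2)
      have h3 := le_max_left T (M + 1)
      omega)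
    simp only at hF1 hF2 hF12
    omega
  · rintro ⟨k₀, hk₀⟩
    have hex : ∃ k, ∀ T, ∃ t, T ≤ t ∧ e t ≤ k := ⟨k₀, hk₀⟩
    set k := Nat.find hex with hk
    have hk1 : ∀ T, ∃ t, T ≤ t ∧ e t ≤ k := Nat.find_spec hex
    have hk2 : ∃ z, ∀ t, z ≤ t → k ≤ e t := by
      by_cases h0 : k = 0
      · exact ⟨0, fun t _ => by omega⟩
      · have hlt : k - 1 < Nat.find hex := by omega
        have := Nat.find_min hex hlt
        push Not at this
        obtain ⟨T, hT⟩ := this
        exact ⟨T, fun t ht => by have := hT t ht; omega⟩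
    set z := Nat.find hk2 with hzdef
    have hz : ∀ t, z ≤ t → k ≤ e t := Nat.find_spec hk2
    have hz' : z = 0 ∨ e (z - 1) < k := by
      by_cases h0 : z = 0
      · exact Or.inl h0
      · right
        have hlt : z - 1 < Nat.find hk2 := by omega
        have := Nat.find_min hk2 hlt
        push Not at this
        obtain ⟨t, ht1, ht2⟩ := this
        rcases Nat.lt_or_ge t z with h | h
        · have : t = z - 1 := by omega
          rw [← this]; exact ht2
        · have := hz t h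
          omega
    have hk3 : ∀ T, ∃ t, T ≤ t ∧ z ≤ t ∧ e t = k := by
      intro T
      obtain ⟨t, ht1, ht2⟩ := hk1 (max T z)
      have h1 := le_max_left T z
      have h2 := le_max_right T z
      have := hz t (by omega)
      exact ⟨t, by omega, by omega, by omega⟩
    obtain ⟨D₁, hne1, hD1, hF1, H1⟩ := H z
    obtain ⟨t₁, ht₁, _, ht₁'⟩ := hk3 (D₁.max' hne1 + 1)
    obtain ⟨D₂, hne2, hD2, hF2, hF12, H2⟩ := H1 t₁
    obtain ⟨t₂, ht₂, _, ht₂'⟩ := hk3 (D₂.max' hne2 + 1)
    obtain ⟨D₃, hne3, hD3, hF3, hF13, hF23, hF123⟩ := H2 (max t₁ t₂)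
    have hm1 := le_max_left t₁ t₂
    have hm2 := le_max_right t₁ t₂
    have h12 : ∀ a ∈ D₁, ∀ b ∈ D₂, a < b := by
      intro a ha b hb
      have h1 := Finset.le_max' _ a ha
      have h2 := hD2 b hb
      omega
    have h13 : ∀ a ∈ D₁, ∀ b ∈ D₃, a < b := by
      intro a ha b hb
      have h1 := Finset.le_max' _ a ha
      have h2 := hD3 b hb
      omega
    have h23 : ∀ a ∈ D₂, ∀ b ∈ D₃, a < b := by
      intro a ha b hb
      have h1 := Finset.le_max' _ a ha
      have h2 := hD3 b hb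
      omega
    have A12 := above_of hne1 hne2 h12
    have A13 := above_of hne1 hne3 h13
    have A23 := above_of hne2 hne3 h23
    have hne12 : (D₁ ∪ D₂).Nonempty := hne1.mono Finset.subset_union_left
    have A123 : Above (D₁ ∪ D₂) D₃ (D₂.max' hne2) (D₃.min' hne3) :=
      ⟨Finset.mem_union_right _ (Finset.max'_mem _ _), by
        intro d hd
        rcases Finset.mem_union.1 hd with hd | hd
        · have := h12 d hd _ (Finset.max'_mem _ hne2)
          omega
        · exact Finset.le_max' _ d hd, Finset.min'_mem _ _, fun d hd => Finset.min'_le _ d hd,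
        h23 _ (Finset.max'_mem _ _) _ (Finset.min'_mem _ _)⟩
    have hz2 : ∀ d ∈ D₂, z ≤ d := by
      intro d hd
      have h1 := h12 _ (Finset.max'_mem _ hne1) d hd
      have h2 := hD1 _ (Finset.max'_mem _ hne1)
      omega
    have R12 := disjoint_rest hz hz' A12 hD1 ⟨t₁, by omega, hD2 _ (Finset.min'_mem _ _), ht₁'⟩
    have R13 := disjoint_rest hz hz' A13 hD1
      ⟨t₁, by omega, by have := hD3 _ (Finset.min'_mem _ hne3); omega, ht₁'⟩
    have R23 := disjoint_rest hz hz' A23 hz2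
      ⟨t₂, by omega, by have := hD3 _ (Finset.min'_mem _ hne3); omega, ht₂'⟩
    have R123 := disjoint_rest hz hz' A123
      (by
        intro d hd
        rcases Finset.mem_union.1 hd with hd | hd
        · exact hD1 d hd
        · exact hz2 d hd)
      ⟨t₂, by omega, by have := hD3 _ (Finset.min'_mem _ hne3); omega, ht₂'⟩
    have c12 := Finset.card_erase_add_one R12.2
    have c13 := Finset.card_erase_add_one R13.2
    have c23 := Finset.card_erase_add_one R23.2
    have c123 := Finset.card_erase_add_one R123.2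
    simp only at hF1 hF2 hF12 hF13 hF23 hF123 hF3
    omega

end H81AE
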