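import Mathlib.Computability.Halting
import Mathlib.Data.Nat.Bitwise
import Mathlib.Tactic

/-! Bounded quantifiers, bounded counting for computable Bool-valued functions. -/

namespace H81AE

open Encodable

variable {α : Type*} [Primcodable α]

/-- bounded existential quantifier -/
def bex (f : ℕ → Bool) (n : ℕ) : Bool := Nat.rec false (fun i r => r || f i) n

/-- bounded universal quantifier -/
def ball (f : ℕ → Bool) (n : ℕ) : Bool := Nat.rec true (fun i r => r && f i) n

/-- bounded counting -/
def cnt (f : ℕ → Bool) (n : ℕ) : ℕ := Nat.rec 0 (fun i r => r + (f i).toNat) n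

@[simp] lemma bex_succ (f : ℕ → Bool) (n : ℕ) : bex f (n + 1) = (bex f n || f n) := rfl
@[simp] lemma bex_zero (f : ℕ → Bool) : bex f 0 = false := rfl
@[simp] lemma ball_succ (f : ℕ → Bool) (n : ℕ) : ball f (n + 1) = (ball f n && f n) := rfl
@[simp] lemma ball_zero (f : ℕ → Bool) : ball f 0 = true := rfl
@[simp] lemma cnt_succ (f : ℕ → Bool) (n : ℕ) : cnt f (n + 1) = cnt f n + (f n).toNat := rfl
@[simp] lemma cnt_zero (f : ℕ → Bool) : cnt f 0 = 0 := rfl

lemma bex_iff (f : ℕ → Bool) (n : ℕ) : bex f n = true ↔ ∃ i < n, f i = true := by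
  induction n with
  | zero => simp
  | succ n ih =>
    rw [bex_succ, Bool.or_eq_true, ih]
    constructor
    · rintro (⟨i, hi, h⟩ | h)
      · exact ⟨i, by omega, h⟩
      · exact ⟨n, by omega, h⟩
    · rintro ⟨i, hi, h⟩
      rcases Nat.lt_succ_iff_lt_or_eq.1 hi with hi | rfl
      · exact Or.inl ⟨i, hi, h⟩
      · exact Or.inr h

lemma ball_iff (f : ℕ → Bool) (n : ℕ) : ball f n = true ↔ ∀ i < n, f i = true := by
  induction n with
  | zero => simp
  | succ n ih =>
    rw [ball_succ, Bool.and_eq_true, ih]
    constructor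
    · rintro ⟨h1, h2⟩ i hi
      rcases Nat.lt_succ_iff_lt_or_eq.1 hi with hi | rfl
      · exact h1 i hi
      · exact h2
    · intro h
      exact ⟨fun i hi => h i (by omega), h n (by omega)⟩

lemma cnt_eq (f : ℕ → Bool) (n : ℕ) :
    cnt f n = ((Finset.range n).filter (fun i => f i = true)).card := by
  induction n with
  | zero => simp
  | succ n ih =>
    rw [cnt_succ, ih, Finset.range_add_one, Finset.filter_insert]
    by_cases h : f n = true
    · rw [if_pos h, Finset.card_insert_of_notMem (by simp), h]; rfl
    · rw [if_neg h]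
      have : f n = false := by simpa using h
      rw [this]; rfl

lemma comp_bex {f : α → ℕ → Bool} {g : α → ℕ} (hf : Computable₂ f) (hg : Computable g) :
    Computable (fun a => bex (f a) (g a)) := by
  unfold bex
  refine Computable.nat_rec (h := fun a p => p.2 || f a p.1) hg (Computable.const false) ?_
  have h1 : Computable (fun p : α × (ℕ × Bool) => f p.1 p.2.1) :=
    hf.comp Computable.fst (Computable.fst.comp Computable.snd)
  have h2 : Computable (fun p : α × (ℕ × Bool) => p.2.2) :=
    Computable.snd.comp Computable.snd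
  exact (Primrec.or.to_comp).comp h2 h1

lemma comp_ball {f : α → ℕ → Bool} {g : α → ℕ} (hf : Computable₂ f) (hg : Computable g) :
    Computable (fun a => ball (f a) (g a)) := by
  unfold ball
  refine Computable.nat_rec (h := fun a p => p.2 && f a p.1) hg (Computable.const true) ?_
  have h1 : Computable (fun p : α × (ℕ × Bool) => f p.1 p.2.1) :=
    hf.comp Computable.fst (Computable.fst.comp Computable.snd)
  have h2 : Computable (fun p : α × (ℕ × Bool) => p.2.2) :=
    Computable.snd.comp Computable.snd
  exact (Primrec.and.to_comp).comp h2 h1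

lemma primrec_toNat : Primrec Bool.toNat := Primrec.dom_finite _

lemma comp_cnt {f : α → ℕ → Bool} {g : α → ℕ} (hf : Computable₂ f) (hg : Computable g) :
    Computable (fun a => cnt (f a) (g a)) := by
  unfold cnt
  refine Computable.nat_rec (h := fun a p => p.2 + (f a p.1).toNat) hg (Computable.const 0) ?_
  have h1 : Computable (fun p : α × (ℕ × ℕ) => f p.1 p.2.1) :=
    hf.comp Computable.fst (Computable.fst.comp Computable.snd)
  have h2 : Computable (fun p : α × (ℕ × ℕ) => p.2.2) :=
    Computable.snd.comp Computable.snd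
  exact (Primrec.nat_add.to_comp).comp h2 (primrec_toNat.to_comp.comp h1)

/-- sums of a computable function -/
def bsum (f : ℕ → ℕ) (n : ℕ) : ℕ := Nat.rec 0 (fun i r => r + f i) n

@[simp] lemma bsum_succ (f : ℕ → ℕ) (n : ℕ) : bsum f (n + 1) = bsum f n + f n := rfl
@[simp] lemma bsum_zero (f : ℕ → ℕ) : bsum f 0 = 0 := rfl

lemma bsum_eq (f : ℕ → ℕ) (n : ℕ) : bsum f n = ∑ i ∈ Finset.range n, f i := by
  induction n with
  | zero => simp
  | succ n ih => rw [bsum_succ, ih, Finset.sum_range_succ]

lemma comp_bsum {f : α → ℕ → ℕ} {g : α → ℕ} (hf : Computable₂ f) (hg : Computable g) :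
    Computable (fun a => bsum (f a) (g a)) := by
  unfold bsum
  refine Computable.nat_rec (h := fun a p => p.2 + f a p.1) hg (Computable.const 0) ?_
  have h1 : Computable (fun p : α × (ℕ × ℕ) => f p.1 p.2.1) :=
    hf.comp Computable.fst (Computable.fst.comp Computable.snd)
  have h2 : Computable (fun p : α × (ℕ × ℕ) => p.2.2) :=
    Computable.snd.comp Computable.snd
  exact (Primrec.nat_add.to_comp).comp h2 h1

end H81AE
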