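import Pool.Agent.H81AE.Code
import Pool.Agent.H81AE.Color

/-! Binary digits, and the computable form of the number of letters. -/

namespace H81AE

open Finset

/-- positions of the binary digits of `c` -/
def digits (c : ℕ) : Finset ℕ := (Finset.range c).filter (fun i => c.testBit i = true)

lemma mem_digits {c i : ℕ} : i ∈ digits c ↔ c.testBit i = true := by
  unfold digits
  rw [Finset.mem_filter, Finset.mem_range]
  constructor
  · exact fun h => h.2
  · intro h
    refine ⟨?_, h⟩
    have h1 : 2 ^ i ≤ c := Nat.ge_two_pow_of_testBit h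
    exact lt_of_lt_of_le Nat.lt_two_pow_self h1

lemma gapB_iff {c a b : ℕ} (hab : a < b) : gapB c a b = true ↔ Gap (digits c) a b := by
  unfold gapB Gap
  rw [Bool.and_eq_true, Bool.and_eq_true, ball_iff]
  simp only [mem_digits]
  constructor
  · rintro ⟨⟨h1, h2⟩, h3⟩
    refine ⟨h1, h2, hab, fun d hd hcon => ?_⟩
    have := h3 d hcon.2
    rw [Bool.not_eq_true', Bool.and_eq_false_iff] at this
    rcases this with h | h
    · have : ltb a d = true := ltb_iff.2 hcon.1
      rw [h] at this; exact absurd this (by simp)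
    · rw [hd] at h; exact absurd h (by simp)
  · rintro ⟨h1, h2, _, h3⟩
    refine ⟨⟨h1, h2⟩, fun d hd => ?_⟩
    rw [Bool.not_eq_true', Bool.and_eq_false_iff]
    by_cases h : c.testBit d = true
    · left
      have := h3 d h
      have h4 : ¬ a < d := fun hh => this ⟨hh, hd⟩
      simp [ltb, h4]
    · right
      simpa using h

lemma LtB_iff {e : ℕ → ℕ} {a b v z : ℕ} : LtB e a b v z = true ↔ Lt e a b v z := by
  unfold LtB Lt
  rw [Bool.and_eq_true, Bool.and_eq_true, Bool.and_eq_true, bex_iff, ball_iff, leb_iff,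
    Bool.or_eq_true, eqb_iff, ltb_iff]
  constructor
  · rintro ⟨⟨⟨h1, t, ht, h2⟩, h3⟩, h4⟩
    rw [Bool.and_eq_true, ltb_iff, eqb_iff] at h2
    refine ⟨h1, ⟨t, h2.1, by omega, h2.2⟩, fun s hs hs' => ?_, h4⟩
    have := h3 s (by omega)
    rw [Bool.or_eq_true, ltb_iff, leb_iff] at this
    omega
  · rintro ⟨h1, ⟨t, ht1, ht2, ht3⟩, h3, h4⟩
    refine ⟨⟨⟨h1, t, by omega, ?_⟩, fun s hs => ?_⟩, h4⟩
    · rw [Bool.and_eq_true, ltb_iff, eqb_iff]; exact ⟨ht1, ht3⟩
    · rw [Bool.or_eq_true, ltb_iff, leb_iff]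
      by_cases hsz : s < z
      · exact Or.inl hsz
      · exact Or.inr (h3 s (by omega) (by omega))

lemma cntA_eq {e : ℕ → ℕ} (he : ∀ t, e t ≤ t) (c : ℕ) : cntA e c = (A e (digits c)).card := by
  classical
  have key : A e (digits c) = ((Finset.range c) ×ˢ (Finset.range c)).filter
      (fun q => bex (fun b => bex (fun a => gapB c a b && LtB e a b q.1 q.2) b) c = true) := by
    ext ⟨v, z⟩
    rw [mem_A, Finset.mem_filter, Finset.mem_product, Finset.mem_range, Finset.mem_range, bex_iff]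
    constructor
    · rintro ⟨a, b, hg, hq⟩
      have hL := (lett_eq_iff e hg.2.2.1).1 hq
      have hb : b < c := (Finset.mem_range.1 (Finset.mem_filter.1 hg.2.1).1)
      have hab := hg.2.2.1
      obtain ⟨t, ht1, ht2, ht3⟩ := hL.2.1
      have h5 := he t
      have h6 := hL.1
      refine ⟨⟨by simp only; omega, by simp only; omega⟩, b, hb, ?_⟩
      rw [bex_iff]
      refine ⟨a, hab, ?_⟩
      rw [Bool.and_eq_true, gapB_iff hab, LtB_iff]
      exact ⟨hg, hL⟩
    · rintro ⟨_, b, hb, hh⟩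
      rw [bex_iff] at hh
      obtain ⟨a, hab, h⟩ := hh
      rw [Bool.and_eq_true, gapB_iff hab, LtB_iff] at h
      exact ⟨a, b, h.1, (lett_eq_iff e hab).2 h.2⟩
  rw [key]
  unfold cntA
  rw [bsum_eq, Finset.card_filter, Finset.sum_product]
  refine Finset.sum_congr rfl fun v _ => ?_
  rw [cnt_eq, Finset.card_filter]

lemma digits_add {c c' N : ℕ} (hc : c < 2 ^ N) (hc' : 2 ^ N ∣ c') :
    digits (c + c') = digits c ∪ digits c' := by
  obtain ⟨a, rfl⟩ := hc'
  ext i
  rw [Finset.mem_union, mem_digits, mem_digits, mem_digits, add_comm,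
    Nat.testBit_two_pow_mul_add a hc i, Nat.testBit_two_pow_mul]
  by_cases hi : i < N
  · rw [if_pos hi]
    simp only [Bool.and_eq_true, decide_eq_true_eq]
    constructor
    · exact fun h => Or.inl h
    · rintro (h | ⟨h, _⟩)
      · exact h
      · omega
  · rw [if_neg hi]
    simp only [Bool.and_eq_true, decide_eq_true_eq]
    constructor
    · exact fun h => Or.inr ⟨by omega, h⟩
    · rintro (h | ⟨_, h⟩)
      · have h1 : 2 ^ i ≤ c := Nat.ge_two_pow_of_testBit h
        have h2 : 2 ^ N ≤ 2 ^ i := Nat.pow_le_pow_right (by norm_num) (by omega)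
        omega
      · exact h

lemma le_of_mem_digits {c N i : ℕ} (hc : 2 ^ N ∣ c) (hi : i ∈ digits c) : N ≤ i := by
  obtain ⟨a, rfl⟩ := hc
  rw [mem_digits, Nat.testBit_two_pow_mul] at hi
  simp only [Bool.and_eq_true, decide_eq_true_eq] at hi
  exact hi.1

lemma digits_nonempty {c : ℕ} (hc : 1 ≤ c) : (digits c).Nonempty := by
  have : c ≠ 0 := by omega
  obtain ⟨i, hi⟩ := Nat.exists_testBit_of_ne_zero this
  exact ⟨i, mem_digits.2 hi⟩

end H81AE
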