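import Mathlib.Data.Finset.Card
import Mathlib.Data.Nat.Lattice
import Mathlib.Tactic

/-! Letters of the gaps of a finite set of stages, for a sequence of labels. -/

namespace H81AE

open Finset

/-- consecutive elements -/
def Gap (D : Finset ℕ) (a b : ℕ) : Prop := a ∈ D ∧ b ∈ D ∧ a < b ∧ ∀ d ∈ D, ¬ (a < d ∧ d < b)

/-- `(v, z)` is the letter of the interval `(a, b]` -/
def Lt (e : ℕ → ℕ) (a b v z : ℕ) : Prop :=
  z ≤ a + 1 ∧ (∃ t, a < t ∧ t ≤ b ∧ e t = v) ∧ (∀ t, z ≤ t → t ≤ b → v ≤ e t) ∧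
    (z = 0 ∨ e (z - 1) < v)

lemma Lt.unique {e : ℕ → ℕ} {a b v z v' z' : ℕ} (h : Lt e a b v z) (h' : Lt e a b v' z') :
    v = v' ∧ z = z' := by
  obtain ⟨h1, ⟨t, ht1, ht2, ht3⟩, h3, h4⟩ := h
  obtain ⟨h1', ⟨t', ht1', ht2', ht3'⟩, h3', h4'⟩ := h'
  have hv : v = v' := by
    have e1 : v ≤ v' := by rw [← ht3']; exact h3 t' (by omega) ht2'
    have e2 : v' ≤ v := by rw [← ht3]; exact h3' t (by omega) ht2
    omega
  subst hv
  refine ⟨rfl, ?_⟩
  by_contra hne
  rcases Nat.lt_or_gt_of_ne hne with hlt | hlt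
  · -- z < z'
    rcases h4' with h4' | h4'
    · omega
    · have := h3 (z' - 1) (by omega) (by omega)
      omega
  · rcases h4 with h4 | h4
    · omega
    · have := h3' (z - 1) (by omega) (by omega)
      omega

lemma exists_Lt (e : ℕ → ℕ) {a b : ℕ} (hab : a < b) : ∃ v z, Lt e a b v z := by
  classical
  -- minimal value
  have hne : ((Finset.Ioc a b).image e).Nonempty := by
    refine ⟨e b, Finset.mem_image.2 ⟨b, by simp [hab], rfl⟩⟩
  set v := ((Finset.Ioc a b).image e).min' hne with hv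
  have hvm : ∃ t, a < t ∧ t ≤ b ∧ e t = v := by
    have := Finset.min'_mem _ hne
    rw [← hv] at this
    obtain ⟨t, ht, ht'⟩ := Finset.mem_image.1 this
    rw [Finset.mem_Ioc] at ht
    exact ⟨t, ht.1, ht.2, ht'⟩
  have hvle : ∀ t, a < t → t ≤ b → v ≤ e t := by
    intro t h1 h2
    exact Finset.min'_le _ _ (Finset.mem_image.2 ⟨t, by simp [h1, h2], rfl⟩)
  have hex : ∃ z, ∀ t, z ≤ t → t ≤ b → v ≤ e t := ⟨a + 1, fun t h1 h2 => hvle t (by omega) h2⟩
  classical
  refine ⟨v, Nat.find hex, Nat.find_min' hex (fun t h1 h2 => hvle t (by omega) h2), hvm,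
    Nat.find_spec hex, ?_⟩
  by_cases h0 : Nat.find hex = 0
  · exact Or.inl h0
  · right
    have hlt : Nat.find hex - 1 < Nat.find hex := by omega
    have := Nat.find_min hex hlt
    by_contra hcon
    apply this
    intro t h1 h2
    rcases Nat.lt_or_ge t (Nat.find hex) with h | h
    · have : t = Nat.find hex - 1 := by omega
      rw [this]; omega
    · exact Nat.find_spec hex t h h2

/-- the letter of the interval `(a, b]` -/
noncomputable def lett (e : ℕ → ℕ) (a b : ℕ) : ℕ × ℕ := by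
  classical
  exact if h : a < b then ((exists_Lt e h).choose, (exists_Lt e h).choose_spec.choose) else (0, 0)

lemma lett_spec (e : ℕ → ℕ) {a b : ℕ} (hab : a < b) : Lt e a b (lett e a b).1 (lett e a b).2 := by
  unfold lett
  rw [dif_pos hab]
  exact (exists_Lt e hab).choose_spec.choose_spec

lemma lett_eq_iff (e : ℕ → ℕ) {a b v z : ℕ} (hab : a < b) :
    lett e a b = (v, z) ↔ Lt e a b v z := by
  constructor
  · intro h
    have := lett_spec e hab
    rw [h] at this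
    exact this
  · intro h
    have := (lett_spec e hab).unique h
    exact Prod.ext this.1 this.2

open Classical in
/-- the set of letters of the gaps of `D` -/
noncomputable def A (e : ℕ → ℕ) (D : Finset ℕ) : Finset (ℕ × ℕ) :=
  ((D ×ˢ D).filter (fun q => Gap D q.1 q.2)).image (fun q => lett e q.1 q.2)

lemma mem_A {e : ℕ → ℕ} {D : Finset ℕ} {q : ℕ × ℕ} :
    q ∈ A e D ↔ ∃ a b, Gap D a b ∧ lett e a b = q := by
  classical
  unfold A
  simp only [Finset.mem_image, Finset.mem_filter, Finset.mem_product, Prod.exists]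
  constructor
  · rintro ⟨a, b, ⟨_, h⟩, hq⟩
    exact ⟨a, b, h, hq⟩
  · rintro ⟨a, b, h, hq⟩
    exact ⟨a, b, ⟨⟨h.1, h.2.1⟩, h⟩, hq⟩

/-- `D₂` lies above `D₁`; `M` is the maximum of `D₁`, `N` the minimum of `D₂` -/
structure Above (D₁ D₂ : Finset ℕ) (M N : ℕ) : Prop where
  hM : M ∈ D₁
  hM' : ∀ d ∈ D₁, d ≤ M
  hN : N ∈ D₂
  hN' : ∀ d ∈ D₂, N ≤ d
  hMN : M < N

lemma gap_union {D₁ D₂ : Finset ℕ} {M N : ℕ} (h : Above D₁ D₂ M N) (a b : ℕ) :
    Gap (D₁ ∪ D₂) a b ↔ Gap D₁ a b ∨ (a = M ∧ b = N) ∨ Gap D₂ a b := by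
  obtain ⟨hM, hM', hN, hN', hMN⟩ := h
  unfold Gap
  constructor
  · rintro ⟨ha, hb, hab, hg⟩
    rw [Finset.mem_union] at ha hb
    rcases ha with ha | ha
    · rcases hb with hb | hb
      · exact Or.inl ⟨ha, hb, hab, fun d hd => hg d (Finset.mem_union_left _ hd)⟩
      · right; left
        have h1 := hM' a ha
        have h2 := hN' b hb
        have h3 := hg M (Finset.mem_union_left _ hM)
        have h4 := hg N (Finset.mem_union_right _ hN)
        constructor <;> omega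
    · rcases hb with hb | hb
      · have h1 := hM' b hb
        have h2 := hN' a ha
        omega
      · exact Or.inr (Or.inr ⟨ha, hb, hab, fun d hd => hg d (Finset.mem_union_right _ hd)⟩)
  · rintro (⟨ha, hb, hab, hg⟩ | ⟨rfl, rfl⟩ | ⟨ha, hb, hab, hg⟩)
    · refine ⟨Finset.mem_union_left _ ha, Finset.mem_union_left _ hb, hab, ?_⟩
      intro d hd
      rcases Finset.mem_union.1 hd with hd | hd
      · exact hg d hd
      · have := hN' d hd
        have := hM' b hb
        omega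
    · refine ⟨Finset.mem_union_left _ hM, Finset.mem_union_right _ hN, hMN, ?_⟩
      intro d hd
      rcases Finset.mem_union.1 hd with hd | hd
      · have := hM' d hd
        omega
      · have := hN' d hd
        omega
    · refine ⟨Finset.mem_union_right _ ha, Finset.mem_union_right _ hb, hab, ?_⟩
      intro d hd
      rcases Finset.mem_union.1 hd with hd | hd
      · have := hM' d hd
        have := hN' a ha
        omega
      · exact hg d hd

lemma A_union {e : ℕ → ℕ} {D₁ D₂ : Finset ℕ} {M N : ℕ} (h : Above D₁ D₂ M N) :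
    A e (D₁ ∪ D₂) = insert (lett e M N) (A e D₁ ∪ A e D₂) := by
  ext q
  rw [mem_A, Finset.mem_insert, Finset.mem_union, mem_A, mem_A]
  constructor
  · rintro ⟨a, b, hg, hq⟩
    rcases (gap_union h a b).1 hg with hg | ⟨rfl, rfl⟩ | hg
    · exact Or.inr (Or.inl ⟨a, b, hg, hq⟩)
    · exact Or.inl hq.symm
    · exact Or.inr (Or.inr ⟨a, b, hg, hq⟩)
  · rintro (hq | ⟨a, b, hg, hq⟩ | ⟨a, b, hg, hq⟩)
    · exact ⟨M, N, (gap_union h M N).2 (Or.inr (Or.inl ⟨rfl, rfl⟩)), hq.symm⟩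
    · exact ⟨a, b, (gap_union h a b).2 (Or.inl hg), hq⟩
    · exact ⟨a, b, (gap_union h a b).2 (Or.inr (Or.inr hg)), hq⟩

/-! ### labels tending to infinity -/

lemma card_union_of_tendsto {e : ℕ → ℕ} {D₁ D₂ : Finset ℕ} {M N : ℕ} (h : Above D₁ D₂ M N)
    {K : ℕ} (hK : ∀ q ∈ A e D₁, q.1 ≤ K) (hK' : e (M + 1) ≤ K) (hT : ∀ t, N ≤ t → K < e t) :
    (A e (D₁ ∪ D₂)).card = (A e D₁).card + (A e D₂).card ∨
    (A e (D₁ ∪ D₂)).card = (A e D₁).card + 1 + (A e D₂).card := by
  rw [A_union h]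
  have hlet : (lett e M N).1 ≤ K := by
    have hs := lett_spec e h.hMN
    have := hs.2.2.1 (M + 1) hs.1 (by have := h.hMN; omega)
    omega
  have h2 : ∀ q ∈ A e D₂, K < q.1 := by
    intro q hq
    obtain ⟨a, b, hg, rfl⟩ := mem_A.1 hq
    obtain ⟨_, ⟨t, ht1, ht2, ht3⟩, _, _⟩ := lett_spec e hg.2.2.1
    rw [← ht3]
    apply hT
    have := h.hN' a hg.1
    omega
  have hdisj : Disjoint (A e D₁) (A e D₂) := by
    rw [Finset.disjoint_left]
    intro q hq1 hq2
    have := hK q hq1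
    have := h2 q hq2
    omega
  have hnot : lett e M N ∉ A e D₂ := by
    intro hq
    have := h2 _ hq
    omega
  by_cases hmem : lett e M N ∈ A e D₁
  · left
    rw [Finset.insert_eq_of_mem (Finset.mem_union_left _ hmem), Finset.card_union_of_disjoint hdisj]
  · right
    rw [Finset.card_insert_of_notMem, Finset.card_union_of_disjoint hdisj]
    · ring
    · rw [Finset.mem_union, not_or]
      exact ⟨hmem, hnot⟩

/-! ### labels with finite lim inf `k` -/

/-- the eventual letter with value `k` -/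
lemma lett_eq_kappa {e : ℕ → ℕ} {k z : ℕ} (hz : ∀ t, z ≤ t → k ≤ e t)
    (hz' : z = 0 ∨ e (z - 1) < k) {a b : ℕ} (hab : a < b) (ha : z ≤ a + 1)
    (hv : ∃ t, a < t ∧ t ≤ b ∧ e t = k) : lett e a b = (k, z) := by
  rw [lett_eq_iff e hab]
  exact ⟨ha, hv, fun t h1 _ => hz t h1, hz'⟩

lemma disjoint_rest {e : ℕ → ℕ} {k z : ℕ} (hz : ∀ t, z ≤ t → k ≤ e t)
    (hz' : z = 0 ∨ e (z - 1) < k) {D₁ D₂ : Finset ℕ} {M N : ℕ} (h : Above D₁ D₂ M N)
    (h1 : ∀ d ∈ D₁, z ≤ d) (hev : ∃ t, M < t ∧ t ≤ N ∧ e t = k) :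
    ((A e (D₁ ∪ D₂)).erase (k, z)).card =
      ((A e D₁).erase (k, z)).card + ((A e D₂).erase (k, z)).card ∧
    (k, z) ∈ A e (D₁ ∪ D₂) := by
  have hκ : lett e M N = (k, z) :=
    lett_eq_kappa hz hz' h.hMN (by have := h1 M h.hM; omega) hev
  rw [A_union h, hκ]
  refine ⟨?_, Finset.mem_insert_self _ _⟩
  have e1 : (insert (k, z) (A e D₁ ∪ A e D₂)).erase (k, z) =
      (A e D₁).erase (k, z) ∪ (A e D₂).erase (k, z) := by
    ext q
    simp only [Finset.mem_erase, Finset.mem_insert, Finset.mem_union]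
    tauto
  rw [e1, Finset.card_union_of_disjoint]
  rw [Finset.disjoint_left]
  intro q hq1 hq2
  rw [Finset.mem_erase] at hq1 hq2
  obtain ⟨hne, hq1⟩ := hq1
  obtain ⟨_, hq2⟩ := hq2
  obtain ⟨a, b, hg, hq⟩ := mem_A.1 hq1
  obtain ⟨a', b', hg', hq'⟩ := mem_A.1 hq2
  have hL := lett_spec e hg.2.2.1
  have hL' := lett_spec e hg'.2.2.1
  rw [hq] at hL
  rw [hq'] at hL'
  -- value of q is > k
  have hkv : k < q.1 := by
    by_contra hcon
    have hk1 : q.1 = k := by
      obtain ⟨t, ht1, ht2, ht3⟩ := hL.2.1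
      have := hz t (by have := h1 a hg.1; omega)
      omega
    apply hne
    have ht := hL.2.1
    rw [hk1] at ht
    rw [← hq]
    exact lett_eq_kappa hz hz' hg.2.2.1 (by have := h1 a hg.1; omega) ht
  -- q.2 ≤ a + 1 ≤ M+1
  obtain ⟨t, ht1, ht2, ht3⟩ := hev
  have h3 : q.2 ≤ a + 1 := hL.1
  have h4 : a < b := hg.2.2.1
  have h5 := h.hM' b hg.2.1
  -- t ≤ N ≤ b'
  have h6 := h.hN' b' hg'.2.1
  have := hL'.2.2.1 t (by omega) (by omega)
  omega

end H81AE
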